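import Pool.Agent.Work.MP_b5407d_lp.Interface

set_option autoImplicit false
open MeasureTheory Real Filter Topology
open scoped ContDiff

namespace Pool.Agent.Work.LPBM.helper57

open Pool.Agent.Work.LPBM

lemma body_vol_pos {n : ℕ} {K : Set (E n)} (h : (interior K).Nonempty) : 0 < volume K :=
  (isOpen_interior.measure_pos volume h).trans_le (measure_mono interior_subset)

theorem stmt_GEN (hPOL : Stmt_POL) (hCEN : Stmt_CEN) (hWUL : Stmt_WUL) : Stmt_GEN := by
  intro n p K C hn hp hp1 hpn hK hC t ht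
  have hn1 : 1 ≤ n := by omega
  obtain ⟨_, hKpos, hKc, hKn, hKi, _⟩ := hCEN n K hn1 hK
  obtain ⟨_, hCpos, hCc, hCn, hCi, _⟩ := hCEN n C hn1 hC
  have hsph : ∀ u ∈ Metric.sphere (0 : E n) 1, u ≠ 0 := by
    intro u hu h0
    rw [h0] at hu
    simp at hu
  have hpos : ∀ a b : ℝ, 0 < a → 0 < b → 0 < (1 - t) * a ^ p + t * b ^ p := by
    intro a b ha hb
    have h1 : 0 < a ^ p := Real.rpow_pos_of_pos ha p
    have h2 : 0 < b ^ p := Real.rpow_pos_of_pos hb p
    rcases eq_or_lt_of_le ht.1 with h | h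
    · rw [← h]; simpa using h1
    · have : 0 ≤ (1 - t) * a ^ p := mul_nonneg (by linarith [ht.2]) h1.le
      have : 0 < t * b ^ p := mul_pos h h2
      linarith
  refine hWUL n (fun u => mp p t (supp K u) (supp C u)) _ hn1 ?_ ?_ ?_
  · intro u hu
    have hu0 := hsph u hu
    apply ContinuousAt.continuousWithinAt
    have c1 : ContinuousAt (fun u => supp K u ^ p) u :=
      hKc.continuousAt.rpow_const (Or.inl (hKpos u hu0).ne')
    have c2 : ContinuousAt (fun u => supp C u ^ p) u :=
      hCc.continuousAt.rpow_const (Or.inl (hCpos u hu0).ne')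
    have c3 : ContinuousAt (fun u => (1 - t) * supp K u ^ p + t * supp C u ^ p) u :=
      (c1.const_mul (1 - t)).add (c2.const_mul t)
    exact c3.rpow_const (Or.inl (hpos _ _ (hKpos u hu0) (hCpos u hu0)).ne')
  · intro u hu
    have hu0 := hsph u hu
    exact Real.rpow_pos_of_pos (hpos _ _ (hKpos u hu0) (hCpos u hu0)) _
  · intro N θ σ hθ hσ hspan
    have hne : ∀ i, θ i ≠ 0 := fun i => hsph _ (hθ i)
    have := hPOL n (Fin N) p θ σ (fun i => supp K (θ i)) (fun i => supp C (θ i)) K C hn hp hp1 hpn hspan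
      hne hσ (fun i => hKpos _ (hne i)) (fun i => hCpos _ (hne i)) ?_ ?_
      hK.2.1.isClosed.measurableSet hC.2.1.isClosed.measurableSet ?_ ?_
      (body_vol_pos hK.2.2.1) (body_vol_pos hC.2.2.1) hK.2.2.2 hC.2.2.2 t ht
    · exact this
    · intro i
      simp only [hσ]
      exact hKn _
    · intro i
      simp only [hσ]
      exact hCn _
    · intro x hx i
      rw [real_inner_comm]
      exact hKi _ x hx
    · intro x hx i
      rw [real_inner_comm]
      exact hCi _ x hx

end Pool.Agent.Work.LPBM.helper57
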