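import Pool.Agent.Work.MP_b5407d_lp.Interface

set_option autoImplicit false
open MeasureTheory Real Filter Topology
open scoped ContDiff ENNReal

namespace Pool.Agent.Work.LPBM.helper57

open Pool.Agent.Work.LPBM

variable {n : ℕ}

lemma trans_cont (G : E n → ℝ) (hG : MemLp G 2 volume) :
    Tendsto (fun z : E n => eLpNorm (fun x => G (x - z) - G x) 2 volume) (𝓝 0) (𝓝 0) := by
  let f : Lp ℝ 2 (volume : Measure (E n)) := hG.toLp G
  let g0 : C(E n × E n, E n) := ⟨fun q => q.2 - q.1, by fun_prop⟩
  let T : C(E n, C(E n, E n)) := g0.curry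
  have hgm : ∀ z, MeasurePreserving (T z) (volume : Measure (E n)) volume := by
    intro z
    exact measurePreserving_sub_right volume z
  have hc : Continuous (fun z => Lp.compMeasurePreserving (T z) (hgm z) f) :=
    continuous_const.compMeasurePreservingLp T.continuous hgm (by norm_num)
  have h1 : Tendsto (fun z => edist (Lp.compMeasurePreserving (T z) (hgm z) f)
      (Lp.compMeasurePreserving (T 0) (hgm 0) f)) (𝓝 0) (𝓝 0) :=
    tendsto_iff_edist_tendsto_0.mp (hc.tendsto 0)
  refine h1.congr ?_
  intro z
  rw [Lp.edist_def]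
  apply eLpNorm_congr_ae
  have hf : f =ᵐ[volume] G := hG.coeFn_toLp
  have a1 := Lp.coeFn_compMeasurePreserving f (hgm z)
  have a2 := Lp.coeFn_compMeasurePreserving f (hgm 0)
  have a3 : (f ∘ T z) =ᵐ[volume] (G ∘ T z) := (hgm z).quasiMeasurePreserving.ae_eq_comp hf
  have a4 : (f ∘ T 0) =ᵐ[volume] (G ∘ T 0) := (hgm 0).quasiMeasurePreserving.ae_eq_comp hf
  filter_upwards [a1, a2, a3, a4] with x h1 h2 h3 h4
  simp only [Pi.sub_apply]
  rw [h1, h2, h3, h4]
  simp [T, g0]

/-- the key estimate for a strongly measurable function -/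
lemma moa_aux (b : ℕ → ContDiffBump (0 : E n)) (hb : ∀ m, (b m).rOut = 1 / ((m : ℝ) + 1))
    (g : E n → ℝ) (hg : StronglyMeasurable g)
    (hint : ∀ ρ : ℝ, IntegrableOn (fun x => (g x) ^ 2) (Metric.ball (0 : E n) ρ) volume) (ρ : ℝ) :
    Tendsto (fun m => ∫ x in Metric.ball (0 : E n) ρ,
      ((∫ y, (b m).normed volume (x - y) * g y) - g x) ^ 2) atTop (𝓝 0) := by
  let G : E n → ℝ := (Metric.ball (0 : E n) (ρ + 1)).indicator g
  have hGm : StronglyMeasurable G := hg.indicator measurableSet_ball
  have hG : MemLp G 2 volume := by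
    rw [memLp_two_iff_integrable_sq hGm.aestronglyMeasurable]
    have := (hint (ρ + 1)).integrable_indicator measurableSet_ball
    refine this.congr ?_
    filter_upwards with x
    by_cases hx : x ∈ Metric.ball (0 : E n) (ρ + 1)
    · simp [G, Set.indicator_of_mem hx]
    · simp [G, Set.indicator_of_notMem hx]
  have htr := trans_cont G hG
  -- pointwise bound
  let η : ℕ → E n → ℝ := fun m => (b m).normed volume
  have hη0 : ∀ m x, 0 ≤ η m x := fun m x => (b m).nonneg_normed x
  have hηc : ∀ m, Continuous (η m) := fun m => (b m).continuous_normed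
  have hηi : ∀ m, Integrable (η m) volume := fun m => (b m).integrable_normed
  have hη1 : ∀ m, ∫ x, η m x = 1 := fun m => (b m).integral_normed
  have hηs : ∀ m x, η m x ≠ 0 → ‖x‖ < 1 / ((m : ℝ) + 1) := by
    intro m x hx
    have : x ∈ Function.support ((b m).normed volume) := hx
    rw [(b m).support_normed_eq, hb] at this
    simpa using this
  have hηL : ∀ m, ∫⁻ x, ENNReal.ofReal (η m x) = 1 := by
    intro m
    rw [← ofReal_integral_eq_lintegral_ofReal (hηi m) (Eventually.of_forall (hη0 m)), hη1 m]
    simp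
  have key : ∀ m, ∫⁻ x in Metric.ball (0 : E n) ρ,
      ‖((∫ y, η m (x - y) * g y) - g x) ^ 2‖ₑ ≤
      ∫⁻ z, ENNReal.ofReal (η m z) * ∫⁻ x, ‖G (x - z) - G x‖ₑ ^ 2 := by
    intro m
    have hm1 : (1 : ℝ) / ((m : ℝ) + 1) ≤ 1 := by
      rw [div_le_one (by positivity)]
      linarith [Nat.cast_nonneg (α := ℝ) m]
    let ν : Measure (E n) := volume.withDensity (fun z => ENNReal.ofReal (η m z))
    haveI hν : IsProbabilityMeasure ν := ⟨by
      rw [withDensity_apply _ MeasurableSet.univ, Measure.restrict_univ]
      exact hηL m⟩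
    have hofm : Measurable (fun z => ENNReal.ofReal (η m z)) :=
      (hηc m).measurable.ennreal_ofReal
    have step1 : ∀ x ∈ Metric.ball (0 : E n) ρ, ‖((∫ y, η m (x - y) * g y) - g x) ^ 2‖ₑ ≤
        ∫⁻ z, ENNReal.ofReal (η m z) * ‖G (x - z) - G x‖ₑ ^ 2 := by
      intro x hx
      have hx' : ‖x‖ < ρ := by simpa using hx
      have hGx : G x = g x := by
        refine Set.indicator_of_mem ?_ _
        rw [Metric.mem_ball, dist_zero_right]
        linarith
      -- rewrite the integral
      have e1 : (∫ y, η m (x - y) * g y) = ∫ z, η m z * G (x - z) := by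
        have h2 : (∫ y, η m (x - y) * g y) = ∫ y, η m (x - y) * G y := by
          apply integral_congr_ae
          filter_upwards with y
          by_cases hy : η m (x - y) = 0
          · rw [hy]; simp
          · have h3 := hηs m _ hy
            have h4 : ‖y‖ < ρ + 1 := by
              calc ‖y‖ = ‖x - (x - y)‖ := by congr 1; abel
                _ ≤ ‖x‖ + ‖x - y‖ := norm_sub_le _ _
                _ < ρ + 1 := by linarith
            have h5 : G y = g y := by
              refine Set.indicator_of_mem ?_ _
              rw [Metric.mem_ball, dist_zero_right]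
              exact h4
            rw [h5]
        rw [h2]
        rw [← integral_sub_left_eq_self (fun y => η m (x - y) * G y) volume x]
        simp
      have hmeas : AEStronglyMeasurable (fun z => G (x - z)) volume :=
        (hGm.comp_measurable (measurable_const.sub measurable_id)).aestronglyMeasurable
      have hL2 : MemLp (fun z => G (x - z)) 2 volume := by
        have := hG.comp_measurePreserving (Measure.measurePreserving_sub_left volume x)
        exact this
      -- integrable product
      have hprod : Integrable (fun z => η m z * G (x - z)) volume := by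
        have hη2 : MemLp (η m) 2 volume := by
          exact (hηc m).memLp_of_hasCompactSupport ((b m).hasCompactSupport_normed)
        exact hη2.integrable_mul hL2
      have e2 : (∫ z, η m z * G (x - z)) - G x = ∫ z, (G (x - z) - G x) ∂ν := by
        rw [integral_withDensity_eq_integral_toReal_smul hofm
          (Eventually.of_forall fun z => ENNReal.ofReal_lt_top)]
        have e3 : G x = ∫ z, η m z * G x := by
          rw [integral_mul_const, hη1 m, one_mul]
        conv_lhs => rw [e3]
        rw [← integral_sub hprod ((hηi m).mul_const _)]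
        apply integral_congr_ae
        filter_upwards with z
        rw [ENNReal.toReal_ofReal (hη0 m z)]
        simp only [smul_eq_mul]
        ring
      rw [e1, ← hGx, e2]
      have e4 : ‖(∫ z, (G (x - z) - G x) ∂ν) ^ 2‖ₑ = ‖∫ z, (G (x - z) - G x) ∂ν‖ₑ ^ 2 := by
        rw [enorm_pow]
      rw [e4]
      have e5 : ‖∫ z, (G (x - z) - G x) ∂ν‖ₑ ≤ ∫⁻ z, ‖G (x - z) - G x‖ₑ ∂ν :=
        enorm_integral_le_lintegral_enorm _
      have hsm : AEStronglyMeasurable (fun z => G (x - z) - G x) ν := by
        refine StronglyMeasurable.aestronglyMeasurable ?_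
        exact (hGm.comp_measurable (measurable_const.sub measurable_id)).sub stronglyMeasurable_const
      have e6 : (∫⁻ z, ‖G (x - z) - G x‖ₑ ∂ν) ≤
          (∫⁻ z, ‖G (x - z) - G x‖ₑ ^ 2 ∂ν) ^ ((1 : ℝ) / 2) := by
        have h := eLpNorm_le_eLpNorm_of_exponent_le (μ := ν) (p := 1) (q := 2)
          (f := fun z => G (x - z) - G x) (by norm_num) hsm
        rw [eLpNorm_one_eq_lintegral_enorm] at h
        rw [eLpNorm_eq_lintegral_rpow_enorm_toReal (by norm_num) (by norm_num)] at h
        simpa using h
      have e7 : (∫⁻ z, ‖G (x - z) - G x‖ₑ ∂ν) ^ 2 ≤ ∫⁻ z, ‖G (x - z) - G x‖ₑ ^ 2 ∂ν := by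
        have h := ENNReal.rpow_le_rpow e6 (z := 2) (by norm_num)
        rw [← ENNReal.rpow_mul] at h
        norm_num at h
        exact h
      calc ‖∫ z, (G (x - z) - G x) ∂ν‖ₑ ^ 2 ≤ (∫⁻ z, ‖G (x - z) - G x‖ₑ ∂ν) ^ 2 := by gcongr
        _ ≤ ∫⁻ z, ‖G (x - z) - G x‖ₑ ^ 2 ∂ν := e7
        _ = ∫⁻ z, ENNReal.ofReal (η m z) * ‖G (x - z) - G x‖ₑ ^ 2 := by
            rw [lintegral_withDensity_eq_lintegral_mul₀ hofm.aemeasurable]
            · rfl
            · exact ((hGm.comp_measurable (measurable_const.sub measurable_id)).sub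
                stronglyMeasurable_const).measurable.enorm.pow_const 2 |>.aemeasurable
    calc ∫⁻ x in Metric.ball (0 : E n) ρ, ‖((∫ y, η m (x - y) * g y) - g x) ^ 2‖ₑ
        ≤ ∫⁻ x in Metric.ball (0 : E n) ρ,
            ∫⁻ z, ENNReal.ofReal (η m z) * ‖G (x - z) - G x‖ₑ ^ 2 :=
          setLIntegral_mono' measurableSet_ball step1
      _ ≤ ∫⁻ x, ∫⁻ z, ENNReal.ofReal (η m z) * ‖G (x - z) - G x‖ₑ ^ 2 :=
          setLIntegral_le_lintegral _ _
      _ = ∫⁻ z, ∫⁻ x, ENNReal.ofReal (η m z) * ‖G (x - z) - G x‖ₑ ^ 2 := by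
          rw [lintegral_lintegral_swap]
          apply Measurable.aemeasurable
          have m1 : Measurable (fun q : E n × E n => ENNReal.ofReal (η m q.2)) :=
            hofm.comp measurable_snd
          have m2 : Measurable (fun q : E n × E n => G (q.1 - q.2)) :=
            hGm.measurable.comp (measurable_fst.sub measurable_snd)
          have m3 : Measurable (fun q : E n × E n => G q.1) := hGm.measurable.comp measurable_fst
          exact m1.mul ((m2.sub m3).enorm.pow_const 2)
      _ = ∫⁻ z, ENNReal.ofReal (η m z) * ∫⁻ x, ‖G (x - z) - G x‖ₑ ^ 2 := by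
          apply lintegral_congr
          intro z
          rw [lintegral_const_mul' _ _ ENNReal.ofReal_ne_top]
  -- conclusion
  rw [Metric.tendsto_atTop]
  intro ε hε
  have hev : ∀ᶠ z in 𝓝 (0 : E n), eLpNorm (fun x => G (x - z) - G x) 2 volume <
      ENNReal.ofReal (Real.sqrt (ε / 2)) := by
    have h0 : (0 : ℝ≥0∞) < ENNReal.ofReal (Real.sqrt (ε / 2)) := by
      rw [ENNReal.ofReal_pos]
      exact Real.sqrt_pos.mpr (by linarith)
    exact htr.eventually (gt_mem_nhds h0)
  obtain ⟨δ, hδ, hball⟩ := Metric.eventually_nhds_iff.mp hev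
  obtain ⟨N, hN⟩ := exists_nat_one_div_lt hδ
  refine ⟨N, fun m hm => ?_⟩
  rw [dist_zero_right]
  have hb2 : ‖∫ x in Metric.ball (0 : E n) ρ, ((∫ y, (b m).normed volume (x - y) * g y) - g x) ^ 2‖ₑ
      ≤ ENNReal.ofReal (ε / 2) := by
    refine (enorm_integral_le_lintegral_enorm _).trans ((key m).trans ?_)
    calc ∫⁻ z, ENNReal.ofReal (η m z) * ∫⁻ x, ‖G (x - z) - G x‖ₑ ^ 2
        ≤ ∫⁻ z, ENNReal.ofReal (η m z) * ENNReal.ofReal (ε / 2) := by
          apply lintegral_mono
          intro z
          by_cases hz : η m z = 0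
          · simp [hz]
          · have hz2 := hηs m z hz
            have hz3 : ‖z‖ < δ := by
              refine hz2.trans_le (le_trans ?_ hN.le)
              apply one_div_le_one_div_of_le (by positivity)
              have : (N : ℝ) ≤ m := by exact_mod_cast hm
              linarith
            have h := hball (y := z) (by simpa using hz3)
            have h2 : ∫⁻ x, ‖G (x - z) - G x‖ₑ ^ 2 ≤ ENNReal.ofReal (ε / 2) := by
              rw [eLpNorm_eq_lintegral_rpow_enorm_toReal (by norm_num) (by norm_num)] at h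
              have hs2 : ENNReal.ofReal (Real.sqrt (ε / 2)) ^ 2 = ENNReal.ofReal (ε / 2) := by
                rw [← ENNReal.ofReal_pow (Real.sqrt_nonneg _), Real.sq_sqrt (by linarith)]
              rw [← hs2]
              generalize ENNReal.ofReal (Real.sqrt (ε / 2)) = s at h
              have h3 := ENNReal.rpow_le_rpow h.le (z := 2) (by norm_num)
              rw [← ENNReal.rpow_mul] at h3
              norm_num at h3
              exact h3
            exact mul_le_mul_right h2 _
      _ = ENNReal.ofReal (ε / 2) := by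
          rw [lintegral_mul_const _ ((hηc m).measurable.ennreal_ofReal), hηL m, one_mul]
  have hb3 : ‖∫ x in Metric.ball (0 : E n) ρ, ((∫ y, (b m).normed volume (x - y) * g y) - g x) ^ 2‖
      ≤ ε / 2 := by
    rw [← ofReal_norm_eq_enorm] at hb2
    exact (ENNReal.ofReal_le_ofReal_iff (by linarith)).mp hb2
  linarith

theorem stmt_MOA : Stmt_MOA := by
  intro n
  let b : ℕ → ContDiffBump (0 : E n) := fun m =>
    { rIn := 1 / (2 * ((m : ℝ) + 1))
      rOut := 1 / ((m : ℝ) + 1)
      rIn_pos := by positivity
      rIn_lt_rOut := by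
        apply one_div_lt_one_div_of_lt (by positivity)
        have : (0 : ℝ) ≤ m := Nat.cast_nonneg m
        linarith }
  refine ⟨fun m => (b m).normed volume, ?_, ?_, ?_, ?_, ?_, ?_⟩
  · intro m
    exact (b m).contDiff_normed
  · intro m x
    exact (b m).nonneg_normed x
  · intro m x
    exact (b m).normed_neg x
  · intro m
    exact (b m).integral_normed
  · intro m
    rw [(b m).support_normed_eq]
  · intro g hg hint ρ
    have hgs := hg.stronglyMeasurable_mk
    have hae := hg.ae_eq_mk
    have h := moa_aux b (fun m => rfl) (hg.mk g) hgs (fun ρ => by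
      refine (hint ρ).congr ?_
      filter_upwards [ae_restrict_of_ae hae] with x hx
      rw [← hx]) ρ
    refine h.congr ?_
    intro m
    have e1 : ∀ x, (∫ y, (b m).normed volume (x - y) * (hg.mk g) y) =
        ∫ y, (b m).normed volume (x - y) * g y := by
      intro x
      apply integral_congr_ae
      filter_upwards [hae] with y hy
      rw [hy]
    apply integral_congr_ae
    filter_upwards [ae_restrict_of_ae hae] with x hx
    rw [e1, ← hx]

end Pool.Agent.Work.LPBM.helper57
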