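import Pool.Agent.Work.MP_b5407d_lp.Interface

set_option autoImplicit false
open MeasureTheory Real Filter Topology
open scoped ContDiff

namespace Pool.Agent.Work.LPBM.helper57

open Pool.Agent.Work.LPBM

variable {n : ℕ}

lemma test_pd {u : E n → ℝ} (hu : Test u) (j : Fin n) : Test (pd j u) := by
  refine ⟨?_, ?_⟩
  · have h1 : ContDiff ℝ ∞ (fderiv ℝ u) := hu.1.fderiv_right (by simp)
    exact h1.clm_apply contDiff_const
  · exact hu.2.fderiv_apply ℝ _

lemma test_cont {u : E n → ℝ} (hu : Test u) : Continuous u := hu.1.continuous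

lemma int_mul_test {u w : E n → ℝ} (hu : Test u) (hw : Continuous w) :
    Integrable (fun x => u x * w x) := by
  exact ((test_cont hu).mul hw).integrable_of_hasCompactSupport (hu.2.mul_right)

lemma int_sq_test {u w : E n → ℝ} (hu : Test u) (hw : Continuous w) :
    Integrable (fun x => (u x) ^ 2 * w x) := by
  have h := int_mul_test (w := fun x => u x * w x) hu ((test_cont hu).mul hw)
  refine h.congr (Eventually.of_forall fun x => ?_)
  simp only
  ring

section
variable {ι : Type} [Fintype ι]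

lemma W_cont (hSW : Stmt_SW0) (k : ℝ) (θ : ι → E n) (h : ι → ℝ) (l : E n) :
    Continuous (W k θ h l) := by
  have hG : Continuous G0 := hSW.2.2.2.1.continuous
  unfold W wt Vpot Upot
  refine Real.continuous_exp.comp (Continuous.neg ?_)
  refine Continuous.sub (continuous_finset_sum _ fun i _ => hG.comp ?_) ?_
  · exact continuous_const.mul ((continuous_const.inner continuous_id).sub continuous_const)
  · exact continuous_const.inner continuous_id

lemma W_pos (k : ℝ) (θ : ι → E n) (h : ι → ℝ) (l : E n) (x : E n) : 0 < W k θ h l x := by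
  unfold W wt
  exact Real.exp_pos _

lemma Sx_cont (hSW : Stmt_SW0) (k : ℝ) (θ : ι → E n) (h : ι → ℝ) : Continuous (Sx k θ h) := by
  have hG : Continuous G1 := hSW.2.2.2.2.1.continuous
  unfold Sx
  refine continuous_finset_sum _ fun i _ => ?_
  refine Continuous.mul (continuous_const.mul (hG.comp ?_)) ?_
  · exact continuous_const.mul ((continuous_const.inner continuous_id).sub continuous_const)
  · exact continuous_const.inner continuous_id

lemma Sx_nonneg (hSW : Stmt_SW0) {k : ℝ} (hk : 0 < k) (θ : ι → E n) {h : ι → ℝ}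
    (hh : ∀ i, 0 < h i) (x : E n) : 0 ≤ Sx k θ h x := by
  have hG : ∀ s, 0 ≤ G1 s := hSW.2.2.2.2.2.2.1
  unfold Sx
  refine Finset.sum_nonneg fun i _ => ?_
  rcases le_or_gt (inner ℝ (θ i) x) (h i) with h1 | h1
  · have : G1 (k * (inner ℝ (θ i) x - h i)) = 0 := by
      unfold G1
      rw [if_pos]
      nlinarith
    rw [this]
    simp
  · have h2 : 0 ≤ inner ℝ (θ i) x := by linarith [hh i]
    exact mul_nonneg (mul_nonneg hk.le (hG _)) h2

lemma W_int (hSW : Stmt_SW0) (hINT : Stmt_INT) {k : ℝ} (hk : 0 < k) (θ : ι → E n)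
    (hsp : Span θ) (h : ι → ℝ) (l : E n) : Integrable (W k θ h l) := by
  obtain ⟨B, hB, hle⟩ := hINT n ι θ hsp k k (∑ i, |h i|) ‖l‖ hk 0
  refine hB.mono' (W_cont hSW k θ h l).aestronglyMeasurable (Eventually.of_forall fun x => ?_)
  have h1 := hle k h l le_rfl le_rfl
    (fun i => Finset.single_le_sum (f := fun i => |h i|) (fun i _ => abs_nonneg _) (Finset.mem_univ i))
    le_rfl x
  rw [pow_zero, mul_one] at h1
  rw [Real.norm_of_nonneg (W_pos k θ h l x).le]
  refine le_trans ?_ h1
  have h2 : (1 : ℝ) ≤ exp (‖l‖ * ‖x‖) := Real.one_le_exp (by positivity)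
  nlinarith [W_pos k θ h l x]

end

theorem stmt_TRB (hSW : Stmt_SW0) (hINT : Stmt_INT) (hTRC : Stmt_TRC) (hTAIL : Stmt_TAIL)
    (hPOI : Stmt_POI) : Stmt_TRB := by
  intro n ι _ k θ h l hm R hn hsp hk hhm hR hh hkm hb hl
  have hhpos : ∀ i, 0 < h i := fun i => lt_of_lt_of_le hhm (hh i)
  have hWc := W_cont hSW k θ h l
  have hWp := W_pos k θ h l
  have hWi := W_int hSW hINT hk θ hsp h l
  have hSc := Sx_cont hSW k θ h
  have hSn := Sx_nonneg hSW hk θ hhpos
  have hZ : 0 < ∫ x, W k θ h l x := by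
    rw [integral_pos_iff_support_of_nonneg (fun x => (hWp x).le) hWi]
    have : Function.support (W k θ h l) = Set.univ := by
      ext x; simp [(hWp x).ne']
    rw [this]
    exact isOpen_univ.measure_pos volume Set.univ_nonempty
  set Z := ∫ x, W k θ h l x with hZdef
  set A0 : ℝ := 81 / 40 * n + 81 / 100 with hA0
  have hA0n : 0 ≤ A0 := by positivity
  refine ⟨20 / 19 * (A0 / Z), ?_⟩
  intro u hu
  have hpd : ∀ j, Test (pd j u) := fun j => test_pd hu j
  obtain ⟨a, ha⟩ := hPOI n ι k θ h l hm R hn hsp hk hhm hR hh hkm hb hl u hu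
  have hβ : 0 < 13 / 10 * R ^ 2 := by positivity
  have htrc := hTRC n ι k θ h l hk hsp u (fun _ => 0) (13 / 10 * R ^ 2) hu hβ
  simp only [sub_zero] at htrc
  obtain ⟨ht1, ht2⟩ := hTAIL n ι k θ h l hm R hn hhm hR hh hkm hb hl
  set q : E n → ℝ := fun x => (n : ℝ) + inner ℝ l x + ‖x‖ ^ 2 / (13 / 10 * R ^ 2) with hq
  have hqc : Continuous q := by
    refine (continuous_const.add (continuous_const.inner continuous_id)).add ?_
    exact (continuous_norm.pow 2).div_const _
  have hqb : ∀ x, q x ≤ A0 + Sx k θ h x / 20 := by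
    intro x
    have hn0 : (0 : ℝ) ≤ n := Nat.cast_nonneg n
    by_cases hx : ∀ i, inner ℝ (θ i) x ≤ 41 / 40 * h i
    · have h1 := ht1 x hx
      have h2 := hSn x
      simp only [hq]
      linarith
    · have h1 := ht2 x hx
      simp only [hq]
      linarith
  set τ : E n → ℝ := fun x => ∑ j, (pd j u x) ^ 2 with hτ
  -- integrals
  have hsum_int : ∀ w : E n → ℝ, Continuous w → Integrable (fun x => τ x * w x) := by
    intro w hw
    have : (fun x => τ x * w x) = fun x => ∑ j, (pd j u x) ^ 2 * w x := by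
      ext x
      simp only [hτ, Finset.sum_mul]
    rw [this]
    exact integrable_finset_sum _ fun j _ => int_sq_test (hpd j) hw
  have hI1 : Integrable (fun x => τ x * Sx k θ h x * W k θ h l x) := by
    refine (hsum_int (fun x => Sx k θ h x * W k θ h l x) (hSc.mul hWc)).congr
      (Eventually.of_forall fun x => ?_)
    exact (mul_assoc _ _ _).symm
  have hI2 : Integrable (fun x => τ x * W k θ h l x) := hsum_int _ hWc
  have hI3 : Integrable (fun x => q x * τ x * W k θ h l x) := by
    refine (hsum_int (fun x => q x * W k θ h l x) (hqc.mul hWc)).congr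
      (Eventually.of_forall fun x => ?_)
    change τ x * (q x * W k θ h l x) = q x * τ x * W k θ h l x
    ring
  set I := ∫ x, τ x * Sx k θ h x * W k θ h l x with hI
  set T := ∫ x, τ x * W k θ h l x with hT
  set H := ∫ x, hs u x * W k θ h l x with hH
  have hHn : 0 ≤ H := by
    apply integral_nonneg
    intro x
    refine mul_nonneg ?_ (hWp x).le
    unfold hs
    exact Finset.sum_nonneg fun i _ => Finset.sum_nonneg fun j _ => sq_nonneg _
  have step1 : ∫ x, q x * τ x * W k θ h l x ≤ A0 * T + I / 20 := by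
    have e : A0 * T + I / 20 = ∫ x, (A0 * (τ x * W k θ h l x) + (τ x * Sx k θ h x * W k θ h l x) / 20) := by
      rw [integral_add (hI2.const_mul _) (hI1.div_const _), integral_const_mul, integral_div]
    rw [e]
    apply integral_mono hI3 ((hI2.const_mul _).add (hI1.div_const _))
    intro x
    change q x * τ x * W k θ h l x ≤ A0 * (τ x * W k θ h l x) + τ x * Sx k θ h x * W k θ h l x / 20
    have h1 : 0 ≤ τ x := Finset.sum_nonneg fun j _ => sq_nonneg _
    have h2 := hqb x
    have h3 : 0 ≤ τ x * W k θ h l x := mul_nonneg h1 (hWp x).le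
    have h4 := mul_le_mul_of_nonneg_right h2 h3
    nlinarith [h4]
  have step2 : I ≤ (∫ x, q x * τ x * W k θ h l x) + 13 / 10 * R ^ 2 * H := htrc
  -- Poincare part
  have hint1 : ∀ j, Integrable (fun x => (pd j u x) ^ 2 * W k θ h l x) := fun j =>
    int_sq_test (hpd j) hWc
  have hint2 : ∀ j, Integrable (fun x => pd j u x * W k θ h l x) := fun j =>
    int_mul_test (hpd j) hWc
  have step3 : T ≤ (∫ x, (∑ j, (pd j u x - a j) ^ 2) * W k θ h l x)
      + (∑ j, (∫ x, pd j u x * W k θ h l x) ^ 2) / Z := by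
    have e1 : ∀ j, ∫ x, (pd j u x - a j) ^ 2 * W k θ h l x =
        (∫ x, (pd j u x) ^ 2 * W k θ h l x) - 2 * a j * (∫ x, pd j u x * W k θ h l x)
          + (a j) ^ 2 * Z := by
      intro j
      have : (fun x => (pd j u x - a j) ^ 2 * W k θ h l x) = fun x =>
          ((pd j u x) ^ 2 * W k θ h l x - 2 * a j * (pd j u x * W k θ h l x))
            + (a j) ^ 2 * W k θ h l x := by
        ext x; ring
      have i1 := hint1 j
      have i2 : Integrable (fun x => 2 * a j * (pd j u x * W k θ h l x)) := (hint2 j).const_mul _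
      have i3 : Integrable (fun x => (a j) ^ 2 * W k θ h l x) := hWi.const_mul _
      have i4 : Integrable (fun x => (pd j u x) ^ 2 * W k θ h l x
          - 2 * a j * (pd j u x * W k θ h l x)) := i1.sub i2
      rw [this, integral_add i4 i3, integral_sub i1 i2, integral_const_mul, integral_const_mul]
    have e2 : (∫ x, (∑ j, (pd j u x - a j) ^ 2) * W k θ h l x) =
        ∑ j, ∫ x, (pd j u x - a j) ^ 2 * W k θ h l x := by
      have : (fun x => (∑ j, (pd j u x - a j) ^ 2) * W k θ h l x) = fun x =>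
          ∑ j, (pd j u x - a j) ^ 2 * W k θ h l x := by
        ext x; rw [Finset.sum_mul]
      rw [this, integral_finset_sum]
      intro j _
      have : (fun x => (pd j u x - a j) ^ 2 * W k θ h l x) = fun x =>
          ((pd j u x) ^ 2 * W k θ h l x - 2 * a j * (pd j u x * W k θ h l x))
            + (a j) ^ 2 * W k θ h l x := by
        ext x; ring
      rw [this]
      exact ((hint1 j).sub ((hint2 j).const_mul _)).add (hWi.const_mul _)
    have e3 : T = ∑ j, ∫ x, (pd j u x) ^ 2 * W k θ h l x := by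
      rw [hT]
      have : (fun x => τ x * W k θ h l x) = fun x => ∑ j, (pd j u x) ^ 2 * W k θ h l x := by
        ext x; simp only [hτ]; rw [Finset.sum_mul]
      rw [this, integral_finset_sum _ fun j _ => hint1 j]
    rw [e2, e3, Finset.sum_div, ← Finset.sum_add_distrib]
    apply Finset.sum_le_sum
    intro j _
    rw [e1 j]
    set m := ∫ x, pd j u x * W k θ h l x with hmm
    have : 0 ≤ (a j - m / Z) ^ 2 * Z := by positivity
    have e4 : (a j - m / Z) ^ 2 * Z = (a j) ^ 2 * Z - 2 * a j * m + m ^ 2 / Z := by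
      field_simp
      ring
    linarith
  set S2 := ∑ j, (∫ x, pd j u x * W k θ h l x) ^ 2 with hS2
  have hfin1 : T ≤ 17 / 10 * R ^ 2 * H + S2 / Z := step3.trans (by linarith)
  have hfin2 : 19 / 20 * I ≤ A0 * T + 13 / 10 * R ^ 2 * H := by linarith
  have hfin3 : A0 * T ≤ A0 * (17 / 10 * R ^ 2 * H + S2 / Z) := mul_le_mul_of_nonneg_left hfin1 hA0n
  have hfin4 : 20 / 19 * (A0 * (17 / 10 * R ^ 2 * H) + 13 / 10 * R ^ 2 * H) ≤
      (3.63 * n + 2.82) * R ^ 2 * H := by
    have hRH : 0 ≤ R ^ 2 * H := by positivity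
    have hn0 : (0 : ℝ) ≤ n := Nat.cast_nonneg n
    have : 20 / 19 * (A0 * (17 / 10) + 13 / 10) ≤ 3.63 * n + 2.82 := by
      rw [hA0]
      norm_num
      linarith
    calc 20 / 19 * (A0 * (17 / 10 * R ^ 2 * H) + 13 / 10 * R ^ 2 * H)
        = (20 / 19 * (A0 * (17 / 10) + 13 / 10)) * (R ^ 2 * H) := by ring
      _ ≤ (3.63 * n + 2.82) * (R ^ 2 * H) := mul_le_mul_of_nonneg_right this hRH
      _ = _ := by ring
  have e5 : 20 / 19 * (A0 / Z) * S2 = 20 / 19 * (A0 * (S2 / Z)) := by ring
  rw [e5]
  linarith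

end Pool.Agent.Work.LPBM.helper57
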