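import Pool.Agent.Work.MP_b5407d_lp.Interface

set_option autoImplicit false
open MeasureTheory Real Filter Topology
open scoped ContDiff

namespace Pool.Agent.Work.LPBM.helper57

open Pool.Agent.Work.LPBM

variable {n : ℕ}

/-- unit vectors and their negatives, indexed -/
noncomputable def vv (u : ℕ → E n) (m : ℕ) : Fin m ⊕ Fin n → E n :=
  Sum.elim (fun k => u k) (fun j => EuclideanSpace.single j (1 : ℝ))

noncomputable def tt (u : ℕ → E n) (m : ℕ) (q : (Fin m ⊕ Fin n) × Bool) : E n :=
  if q.2 then vv u m q.1 else - vv u m q.1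

lemma span_tt (u : ℕ → E n) (m : ℕ) (hn : 1 ≤ n) (x : E n) :
    ∃ q, (1 / Real.sqrt n) * ‖x‖ ≤ inner ℝ (tt u m q) x := by
  haveI : Nonempty (Fin n) := ⟨⟨0, hn⟩⟩
  obtain ⟨j, hj⟩ := Finite.exists_max (fun j : Fin n => |x j|)
  have h1 : ‖x‖ ^ 2 ≤ n * |x j| ^ 2 := by
    rw [EuclideanSpace.norm_sq_eq]
    calc ∑ i, ‖x i‖ ^ 2 ≤ ∑ _i : Fin n, |x j| ^ 2 := by
          apply Finset.sum_le_sum
          intro i _
          rw [Real.norm_eq_abs]
          exact pow_le_pow_left₀ (abs_nonneg _) (hj i) 2
      _ = n * |x j| ^ 2 := by simp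
  have hn' : (0 : ℝ) < Real.sqrt n := Real.sqrt_pos.mpr (by exact_mod_cast hn)
  have h2 : (1 / Real.sqrt n) * ‖x‖ ≤ |x j| := by
    rw [one_div, inv_mul_le_iff₀ hn']
    have h3 : ‖x‖ ≤ Real.sqrt (n * |x j| ^ 2) := Real.le_sqrt_of_sq_le h1
    rw [Real.sqrt_mul (by positivity), Real.sqrt_sq (abs_nonneg _)] at h3
    exact h3
  rcases le_total 0 (x j) with h | h
  · refine ⟨(Sum.inr j, true), ?_⟩
    simp only [tt, vv, if_true, Sum.elim_inr]
    rw [EuclideanSpace.inner_single_left]
    simp only [map_one, one_mul]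
    rw [abs_of_nonneg h] at h2
    exact h2
  · refine ⟨(Sum.inr j, false), ?_⟩
    simp only [tt, vv, Sum.elim_inr]
    simp only [Bool.false_eq_true, if_false]
    rw [inner_neg_left, EuclideanSpace.inner_single_left]
    simp only [map_one, one_mul]
    rw [abs_of_nonpos h] at h2
    exact h2

theorem stmt_WUL : Stmt_WUL := by
  intro n M c hn hM hpos H
  haveI : Nonempty (Fin n) := ⟨⟨0, hn⟩⟩
  -- dense sequence of the sphere
  have hne : (Metric.sphere (0 : E n) 1).Nonempty := by
    refine ⟨EuclideanSpace.single ⟨0, hn⟩ (1 : ℝ), ?_⟩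
    simp
  haveI : Nonempty (Metric.sphere (0 : E n) 1) := hne.to_subtype
  let w : ℕ → Metric.sphere (0 : E n) 1 := TopologicalSpace.denseSeq _
  have hw : DenseRange w := TopologicalSpace.denseRange_denseSeq _
  let u : ℕ → E n := fun k => (w k : E n)
  have hu : ∀ k, u k ∈ Metric.sphere (0 : E n) 1 := fun k => (w k).2
  -- the sets
  let A : ℕ → Set (E n) := fun m => {x | ∀ q, inner ℝ (tt u m q) x ≤ M (tt u m q)}
  have hunit : ∀ m q, tt u m q ∈ Metric.sphere (0 : E n) 1 := by
    intro m q
    rcases q with ⟨i, b⟩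
    rcases i with k | j
    · cases b
      · simpa [tt, vv] using (hu k)
      · simpa [tt, vv] using (hu k)
    · cases b
      · simp [tt, vv]
      · simp [tt, vv]
  -- volume bound for every m
  have hA : ∀ m, c ≤ (volume (A m)).toReal := by
    intro m
    let e := Fintype.equivFin ((Fin m ⊕ Fin n) × Bool)
    have := H (Fintype.card ((Fin m ⊕ Fin n) × Bool)) (fun i => tt u m (e.symm i))
      (fun i => e ((e.symm i).1, !(e.symm i).2)) (fun i => hunit m _) ?_ ?_
    · have hset : Pset (fun i => tt u m (e.symm i)) (fun i => M (tt u m (e.symm i))) = A m := by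
        ext x
        simp only [Pset, A, Set.mem_setOf_eq]
        constructor
        · intro h q
          simpa using h (e q)
        · intro h i
          exact h _
      rw [hset] at this
      exact this
    · intro i
      simp only [Equiv.symm_apply_apply, tt]
      cases (e.symm i).2 <;> simp
    · refine ⟨1 / Real.sqrt n, by positivity, ?_⟩
      intro x
      obtain ⟨q, hq⟩ := span_tt u m hn x
      exact ⟨e q, by simpa using hq⟩
  -- monotone
  have hanti : Antitone A := by
    intro m m' hmm x hx q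
    rcases q with ⟨i, b⟩
    rcases i with k | j
    · have := hx (Sum.inl ⟨k, lt_of_lt_of_le k.2 hmm⟩, b)
      simpa [tt, vv] using this
    · have := hx (Sum.inr j, b)
      simpa [tt, vv] using this
  have hclosed : ∀ m, IsClosed (A m) := by
    intro m
    have : A m = ⋂ q, {x | inner ℝ (tt u m q) x ≤ M (tt u m q)} := by
      ext x; simp [A]
    rw [this]
    refine isClosed_iInter (fun q => isClosed_le ?_ continuous_const)
    exact continuous_const.inner continuous_id
  -- bounded
  obtain ⟨B, hB⟩ : ∃ B, ∀ v ∈ Metric.sphere (0 : E n) 1, M v ≤ B := by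
    have hc : IsCompact (Metric.sphere (0 : E n) 1) := isCompact_sphere _ _
    obtain ⟨z, _, hz2⟩ := hc.exists_isMaxOn hne hM
    exact ⟨M z, fun v hv => hz2 hv⟩
  have hbd : ∀ m, A m ⊆ Metric.closedBall (0 : E n) (Real.sqrt n * B) := by
    intro m x hx
    obtain ⟨q, hq⟩ := span_tt u m hn x
    have h1 := (hq.trans (hx q)).trans (hB _ (hunit m q))
    have hn' : (0 : ℝ) < Real.sqrt n := Real.sqrt_pos.mpr (by exact_mod_cast hn)
    rw [one_div, inv_mul_le_iff₀ hn'] at h1
    simpa using h1
  have hfin : ∀ m, volume (A m) ≠ ⊤ := by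
    intro m
    exact ((measure_mono (hbd m)).trans_lt measure_closedBall_lt_top).ne
  -- intersection
  have hinter : (⋂ m, A m) ⊆ Wulff M := by
    intro x hx v hv
    rw [Set.mem_iInter] at hx
    have hk : ∀ k, inner ℝ (u k) x ≤ M (u k) := by
      intro k
      have := hx (k + 1) (Sum.inl ⟨k, Nat.lt_succ_self k⟩, true)
      simpa [tt, vv] using this
    have hcl : IsClosed {v : Metric.sphere (0 : E n) 1 | inner ℝ (v : E n) x ≤ M v} := by
      refine isClosed_le ?_ ?_
      · exact continuous_subtype_val.inner continuous_const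
      · exact continuousOn_iff_continuous_restrict.mp hM
    have hall : (Set.univ : Set (Metric.sphere (0 : E n) 1)) ⊆
        {v : Metric.sphere (0 : E n) 1 | inner ℝ (v : E n) x ≤ M v} := by
      rw [← hw.closure_range]
      refine closure_minimal ?_ hcl
      rintro _ ⟨k, rfl⟩
      exact hk k
    have := hall (Set.mem_univ (⟨v, hv⟩ : Metric.sphere (0 : E n) 1))
    simp only [Set.mem_setOf_eq] at this
    rw [real_inner_comm]
    exact this
  have hWfin : volume (Wulff M) ≠ ⊤ := by
    have : Wulff M ⊆ A 0 := by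
      intro x hx q
      have := hx _ (hunit 0 q)
      rwa [real_inner_comm] at this
    exact ((measure_mono this).trans_lt (hfin 0).lt_top).ne
  have hlim := tendsto_measure_iInter_atTop (μ := volume) (s := A)
    (fun m => (hclosed m).measurableSet.nullMeasurableSet) hanti ⟨0, hfin 0⟩
  have hlim2 : Tendsto (fun m => (volume (A m)).toReal) atTop (𝓝 (volume (⋂ m, A m)).toReal) := by
    refine (ENNReal.tendsto_toReal ?_).comp hlim
    exact ((measure_mono (Set.iInter_subset A 0)).trans_lt (hfin 0).lt_top).ne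
  have h1 : c ≤ (volume (⋂ m, A m)).toReal := ge_of_tendsto' hlim2 hA
  exact h1.trans (ENNReal.toReal_mono hWfin (measure_mono hinter))

end Pool.Agent.Work.LPBM.helper57
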